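import Pool.Agent.LibNU53.Main

/-!
# The correlation length exponent exists and equals `2/α`, for multiscale planar fields, `α` small
-/

open MeasureTheory ProbabilityTheory Filter Topology

namespace Pool.Agent.Results.MP_924624_pr.ExponentSmallAlpha

open GFPerc NU53

/-- `ξ(ℓ) = |ℓ|^(-ν + o(1))` as `ℓ ↑ 0`, for the correlation length `ξ` at the parameter `ε`. -/
def HasExponent {Ω : Type*} [MeasurableSpace Ω] (P : Measure Ω) (f : E2 → Ω → ℝ) (ε ν : ℝ) :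
    Prop :=
  ∀ δ : ℝ, 0 < δ → ∀ᶠ ℓ in 𝓝[<] (0 : ℝ),
    ENNReal.ofReal (|ℓ| ^ (-ν + δ)) ≤ xi P f ε ℓ ∧
      xi P f ε ℓ ≤ ENNReal.ofReal (|ℓ| ^ (-ν - δ))

/-- Let `x ↦ φ ‖x‖` be a nonnegative `C²` function on the plane, positive at `0`, with support in a
disc, `kap φ` its convolution square and `Kfull φ α r = ∫_1^∞ s^(-1-α) kap φ (r/s) ds`. There is
`α0 > 0` such that for `0 < α < α0`: `Kfull φ α r ∼ c r^(-α)` with `c > 0`, and for every centred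
stationary isotropic Gaussian field with continuous paths and covariance `b Kfull φ α`, `b > 0`, the
correlation length is of order `|ℓ|^(-2/α)`; the exponent `ν` exists and equals `2/α`. -/
theorem result (φ : ℝ → ℝ) (a : ℝ) (hφ : Prof φ a) : ∃ α0 : ℝ, 0 < α0 ∧
    ∀ α : ℝ, 0 < α → α < α0 →
      (∃ c : ℝ, 0 < c ∧ Tendsto (fun r => Kfull φ α r * r ^ α) atTop (𝓝 c)) ∧
      ∀ b : ℝ, 0 < b → ∀ {Ω : Type*} [MeasurableSpace Ω] (P : Measure Ω) (f : E2 → Ω → ℝ),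
        IsPlanarField P f (fun r => b * Kfull φ α r) →
        ∀ ε : ℝ, 0 < ε → ε < 1 / 2 →
          (∃ c' C' : ℝ, 0 < c' ∧ 0 < C' ∧ ∀ᶠ ℓ in 𝓝[<] (0 : ℝ),
            ENNReal.ofReal (c' * |ℓ| ^ (-(2 / α))) ≤ xi P f ε ℓ ∧
            xi P f ε ℓ ≤ ENNReal.ofReal (C' * |ℓ| ^ (-(2 / α)))) ∧
          HasExponent P f ε (2 / α) := by
  obtain ⟨α0, hα0, h⟩ := nu_main hφ
  refine ⟨α0, hα0, fun α hα hα1 => ?_⟩
  obtain ⟨h1, h2⟩ := h α hα hα1
  refine ⟨h1, ?_⟩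
  intro b hb Ω _ P f hf ε hε hε2
  exact (h2 b hb P f hf).2 ε hε hε2

end Pool.Agent.Results.MP_924624_pr.ExponentSmallAlpha
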