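import Pool.Agent.LibGFPerc.Main

/-!
# The correlation length exponent is at least `2/α`, for all planar fields with `0 < α < 2`
-/

open MeasureTheory ProbabilityTheory Filter Topology

namespace Pool.Agent.Results.MP_924624_pr.LowerBound

open GFPerc

/-- `ξ(ℓ) = |ℓ|^(-ν + o(1))` as `ℓ ↑ 0`, for the correlation length `ξ` at the parameter `ε`. -/
def HasExponent {Ω : Type*} [MeasurableSpace Ω] (P : Measure Ω) (f : E2 → Ω → ℝ) (ε ν : ℝ) :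
    Prop :=
  ∀ δ : ℝ, 0 < δ → ∀ᶠ ℓ in 𝓝[<] (0 : ℝ),
    ENNReal.ofReal (|ℓ| ^ (-ν + δ)) ≤ xi P f ε ℓ ∧
      xi P f ε ℓ ≤ ENNReal.ofReal (|ℓ| ^ (-ν - δ))

/-- For every centred stationary isotropic planar Gaussian field with continuous paths and
covariance asymptotic to `c |x|^{-α}`, `0 < α < 2`: a bound for the crossing probabilities below
level `0`, the lower bound `c' |ℓ|^{-2/α}` for the correlation length, for every `ε < 1/2`, and the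
inequality `ν ≥ 2/α` for the correlation length exponent. -/
theorem result {Ω : Type*} [MeasurableSpace Ω] (P : Measure Ω) (f : E2 → Ω → ℝ) (κ : ℝ → ℝ)
    (hf : IsPlanarField P f κ) (α c : ℝ) (hα : 0 < α) (hα2 : α < 2) (hc : 0 < c)
    (hκ : Tendsto (fun r => κ r * r ^ α) atTop (𝓝 c)) :
    (∃ C : ℝ, 0 < C ∧ ∀ ℓ : ℝ, ℓ < 0 → ∀ R : ℝ, 0 ≤ R →
      (1 / 2 ≤ P (crossEvent f ℓ R) + ENNReal.ofReal (C * |ℓ| * (1 + R) ^ (α / 2)) ∧
        P (crossEvent f ℓ R)ᶜ ≤ 1 / 2 + ENNReal.ofReal (C * |ℓ| * (1 + R) ^ (α / 2)))) ∧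
    (∀ ε : ℝ, 0 < ε → ε < 1 / 2 → ∃ c' : ℝ, 0 < c' ∧ ∀ᶠ ℓ in 𝓝[<] (0 : ℝ),
      ENNReal.ofReal (c' * |ℓ| ^ (-(2 / α))) ≤ xi P f ε ℓ) ∧
    (∀ ε : ℝ, 0 < ε → ε < 1 / 2 → ∀ ν : ℝ, HasExponent P f ε ν → 2 / α ≤ ν) := by
  have hP : IsProbabilityMeasure P := hf.gaussian.isProbabilityMeasure
  obtain ⟨C, hC, hb⟩ := crossing_bound hf hα hα2 hc hκ
  have hxi : ∀ ε : ℝ, 0 < ε → ε < 1 / 2 → ∃ c' : ℝ, 0 < c' ∧ ∀ᶠ ℓ in 𝓝[<] (0 : ℝ),
      ENNReal.ofReal (c' * |ℓ| ^ (-(2 / α))) ≤ xi P f ε ℓ :=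
    fun ε h1 h2 => xi_bound hα hC hb h1 h2
  refine ⟨⟨C, hC, ?_⟩, hxi, ?_⟩
  · intro ℓ hℓ R hR
    refine ⟨?_, hb ℓ hℓ R hR⟩
    have h1 := hb ℓ hℓ R hR
    have h2 : (1 : ENNReal) ≤ P (crossEvent f ℓ R) + P (crossEvent f ℓ R)ᶜ := by
      calc (1 : ENNReal) = P Set.univ := measure_univ.symm
        _ = P (crossEvent f ℓ R ∪ (crossEvent f ℓ R)ᶜ) := by rw [Set.union_compl_self]
        _ ≤ _ := measure_union_le _ _
    have h3 : (1 / 2 : ENNReal) + 1 / 2 ≤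
        1 / 2 + (P (crossEvent f ℓ R) + ENNReal.ofReal (C * |ℓ| * (1 + R) ^ (α / 2))) := by
      calc (1 / 2 : ENNReal) + 1 / 2 = 1 := ENNReal.add_halves 1
        _ ≤ P (crossEvent f ℓ R) + P (crossEvent f ℓ R)ᶜ := h2
        _ ≤ P (crossEvent f ℓ R) +
            (1 / 2 + ENNReal.ofReal (C * |ℓ| * (1 + R) ^ (α / 2))) := by gcongr
        _ = _ := by ring
    exact (ENNReal.add_le_add_iff_left (by norm_num)).1 h3
  · intro ε hε hε2 ν hν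
    by_contra hlt
    push Not at hlt
    obtain ⟨c', hc', hev⟩ := hxi ε hε hε2
    set δ : ℝ := (2 / α - ν) / 2 with hδ
    have hδpos : 0 < δ := by rw [hδ]; linarith
    have h1 := hν δ hδpos
    have hpos : 0 < c' ^ (1 / δ) := by positivity
    have hsmall : ∀ᶠ ℓ in 𝓝[<] (0 : ℝ), |ℓ| < c' ^ (1 / δ) := by
      apply eventually_nhdsWithin_of_eventually_nhds
      have : Tendsto (fun ℓ : ℝ => |ℓ|) (𝓝 0) (𝓝 0) := by
        simpa using (continuous_abs.tendsto (0 : ℝ))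
      exact this.eventually (gt_mem_nhds hpos)
    have hneg : ∀ᶠ ℓ in 𝓝[<] (0 : ℝ), ℓ < 0 := eventually_mem_nhdsWithin
    obtain ⟨ℓ, ⟨⟨⟨ha, hb'⟩, hc2⟩, hd⟩⟩ := (((h1.and hev).and hsmall).and hneg).exists
    have habs : 0 < |ℓ| := abs_pos.2 hd.ne
    have h2 : ENNReal.ofReal (c' * |ℓ| ^ (-(2 / α))) ≤ ENNReal.ofReal (|ℓ| ^ (-ν - δ)) :=
      hb'.trans ha.2
    rw [ENNReal.ofReal_le_ofReal_iff (by positivity)] at h2
    have h3 : |ℓ| ^ (-ν - δ) = |ℓ| ^ δ * |ℓ| ^ (-(2 / α)) := by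
      rw [← Real.rpow_add habs]
      congr 1
      rw [hδ]; ring
    rw [h3] at h2
    have h4 : c' ≤ |ℓ| ^ δ := le_of_mul_le_mul_right h2 (by positivity)
    have h5 : |ℓ| ^ δ < c' := by
      calc |ℓ| ^ δ < (c' ^ (1 / δ)) ^ δ := Real.rpow_lt_rpow habs.le hc2 hδpos
        _ = c' := by
          rw [← Real.rpow_mul hc'.le, one_div, inv_mul_cancel₀ hδpos.ne', Real.rpow_one]
    linarith

end Pool.Agent.Results.MP_924624_pr.LowerBound
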